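import Pool.Agent.U367.TD.Phi

/-!
# Project TD, package IND (helper780): `φ` and the identity are linearly independent
-/

set_option autoImplicit false

namespace Pool.Agent.U780.TD.IND

open Pool.Agent.N171 Pool.Agent.U367.TD

theorem t_IND : S_IND := by
  intro p _ U _ π e B hdiv hinj h01 h11 φ hφ z w hzw
  -- division of vectors
  have hdiv2 : ∀ x : Fin 2 → U, ∃ y, p • y = x := by
    intro x
    choose y hy using fun i => hdiv (x i)
    exact ⟨y, funext hy⟩
  choose dv hdv using hdiv2
  set m₀ : Fin 2 → ℤ := ![0, 1] with hm₀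
  let x : ℕ → (Fin 2 → U) := fun n => Nat.rec (per (qm π e B) m₀) (fun _ y => dv y) n
  have hx0 : x 0 = per (qm π e B) m₀ := rfl
  have hxs : ∀ n, p • x (n + 1) = x n := fun n => hdv (x n)
  have hxn : ∀ n, p ^ n • x n = per (qm π e B) m₀ := by
    intro n
    induction n with
    | zero => rw [pow_zero, one_smul, hx0]
    | succ n ih => rw [pow_succ, mul_smul, hxs, ih]
  let a : TateMod p ((Fin 2 → U) ⧸ (per (qm π e B)).range) :=
    { seq := fun n => QuotientAddGroup.mk (x n)
      prop := by
        constructor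
        · rw [hx0]
          exact (QuotientAddGroup.eq_zero_iff _).2 ⟨m₀, rfl⟩
        · intro n
          have h1 : (QuotientAddGroup.mk (p • x (n + 1)) :
              (Fin 2 → U) ⧸ (per (qm π e B)).range) = QuotientAddGroup.mk (x n) := by rw [hxs]
          exact h1 }
  have ha : ∀ n, a.1 n = QuotientAddGroup.mk (x n) := fun n => rfl
  -- level `n`
  have key : ∀ n, PadicInt.toZModPow n z = 0 ∧ PadicInt.toZModPow n w = 0 := by
    intro n
    obtain ⟨M, D, hM⟩ := exists_approx B n
    have h1 : (φ a).1 n = QuotientAddGroup.mk (FF e M D (x n) m₀) :=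
      hφ a n (x n) m₀ M D hM (ha n) (hxn n)
    set k : ℕ := (PadicInt.toZModPow n z).val with hk
    set l : ℕ := (PadicInt.toZModPow n w).val with hl
    have h2 : k • a.1 n + l • (φ a).1 n = 0 := by
      have h3 := congrArg (fun b => b.1 n) (hzw a)
      exact h3
    rw [ha, h1] at h2
    have h3 : (QuotientAddGroup.mk (k • x n + l • FF e M D (x n) m₀) :
        (Fin 2 → U) ⧸ (per (qm π e B)).range) = 0 := h2
    obtain ⟨m', hm'⟩ := (QuotientAddGroup.eq_zero_iff _).1 h3
    have h4 : per (qm π e B) (p ^ n • m') =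
        per (qm π e B) (k • m₀ + l • M.mulVec m₀) := by
      rw [map_nsmul, hm', smul_add, smul_comm, hxn, smul_comm (p ^ n) l, ← FF_smul, hxn,
        FF_lift π e B n M D hM m₀, map_add, map_nsmul, map_nsmul]
    have h5 := hinj h4
    have h6 : ∀ i, ((M i 1 : ℤ) : ZMod (p ^ n)) = PadicInt.toZModPow n (B i 1) := by
      intro i
      have h7 := congrFun (congrFun hM i) 1
      simp only [cm, Matrix.add_apply, Matrix.map_apply, Matrix.smul_apply, smul_eq_mul] at h7
      rw [h7, map_add, map_mul, map_pow, map_natCast, map_intCast]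
      have h8 : ((p : ℕ) : ZMod (p ^ n)) ^ n = 0 := by
        rw [← Nat.cast_pow, ZMod.natCast_self]
      rw [h8, zero_mul, add_zero]
    have h7 : ∀ i, (p ^ n : ℤ) * m' i = k * m₀ i + l * M i 1 := by
      intro i
      have h8 := congrFun h5 i
      have h9 : M.mulVec m₀ i = M i 1 := by
        simp [Matrix.mulVec, dotProduct, hm₀]
      change p ^ n • m' i = k • m₀ i + l • M.mulVec m₀ i at h8
      rw [h9, nsmul_eq_mul, nsmul_eq_mul, nsmul_eq_mul, Nat.cast_pow] at h8
      exact h8
    have h8 : ∀ i, (k : ZMod (p ^ n)) * (m₀ i : ℤ) + l * PadicInt.toZModPow n (B i 1) = 0 := by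
      intro i
      have h9 := congrArg (fun t : ℤ => (t : ZMod (p ^ n))) (h7 i)
      simp only [Int.cast_add, Int.cast_mul, Int.cast_pow, Int.cast_natCast, h6] at h9
      rw [← h9, ← Nat.cast_pow, ZMod.natCast_self, zero_mul]
    have h9 := h8 0
    have h10 := h8 1
    rw [h01, map_one, mul_one] at h9
    rw [h11, map_zero, mul_zero, add_zero] at h10
    have e0 : m₀ 0 = 0 := rfl
    have e1 : m₀ 1 = 1 := rfl
    rw [e0, Int.cast_zero, mul_zero, zero_add, hl, ZMod.natCast_val, ZMod.cast_id] at h9
    rw [e1, Int.cast_one, mul_one, hk, ZMod.natCast_val, ZMod.cast_id] at h10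
    exact ⟨h10, h9⟩
  constructor
  · apply PadicInt.ext_of_toZModPow.1
    intro n
    rw [(key n).1, map_zero]
  · apply PadicInt.ext_of_toZModPow.1
    intro n
    rw [(key n).2, map_zero]

end Pool.Agent.U780.TD.IND
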